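import Pool.Agent.H61.CM4.TargetsB
import Pool.Agent.H16.HK.PS
import Pool.Agent.H42.RC.GA
import Pool.Agent.H33.RC.F1
import Pool.Agent.H12.RC.GS
import Pool.Agent.H68.RC.PO

/-!
Row B1_THT of the board cm4_modules (`MP_52e316_nt`): theta inversion for the lattices of rank 2 over
a totally real field.
-/

set_option autoImplicit false

open MeasureTheory Set Filter NumberField NumberField.InfinitePlace NumberField.Units
  NumberField.Units.dirichletUnitTheorem Pool.Agent.H65.CM4 Pool.Agent.H25.HK Pool.Agent.H61.CM4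
open scoped Real

namespace Pool.Agent.H33.CM4B

/-- Poisson summation without polynomial factor -/
lemma poisson {ι : Type} [Fintype ι] [DecidableEq ι] (A : Matrix ι ι ℝ) (hA : A.det ≠ 0) :
    Summable (fun m : ι → ℤ => Real.exp (-π * ∑ i, (A.mulVec (fun i => (m i : ℝ)) i) ^ 2)) ∧
    ∑' m : ι → ℤ, Real.exp (-π * ∑ i, (A.mulVec (fun i => (m i : ℝ)) i) ^ 2) =
      |A.det|⁻¹ * ∑' m : ι → ℤ,
        Real.exp (-π * ∑ i, ((A⁻¹).transpose.mulVec (fun i => (m i : ℝ)) i) ^ 2) := by
  have hPO : Pool.Agent.H28.RC.T_POc := Pool.Agent.H68.RC.pf_PO Pool.Agent.H16.HK.ps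
    (Pool.Agent.H42.RC.pf_GA Pool.Agent.H33.RC.pf_F1) Pool.Agent.H12.RC.pf_GS
  obtain ⟨h1, -, h3⟩ := hPO ι A ∅ hA (fun _ => 0)
  have e : ∀ u : ι → ℝ, Pool.Agent.H28.RC.gj (∅ : Finset ι) u =
      Real.exp (-π * ∑ i, u i ^ 2) := fun u => by
    simp [Pool.Agent.H28.RC.gj]
  simp only [e, add_zero] at h1 h3
  refine ⟨?_, ?_⟩
  · refine h1.congr fun m => ?_
    rw [Real.norm_eq_abs, abs_of_pos (Real.exp_pos _)]
  · simp only [mul_zero, Finset.sum_const_zero, Complex.ofReal_zero, zero_mul, Complex.exp_zero,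
      one_mul, Finset.card_empty, pow_zero, mul_one] at h3
    have h4 : (((∑' m : ι → ℤ, Real.exp (-π * ∑ i, (A.mulVec (fun i => (m i : ℝ)) i) ^ 2)) : ℝ) : ℂ)
        = ((|A.det|⁻¹ * ∑' m : ι → ℤ, Real.exp (-π * ∑ i,
          ((A⁻¹).transpose.mulVec (fun i => (m i : ℝ)) i) ^ 2) : ℝ) : ℂ) := by
      rw [Complex.ofReal_mul, Complex.ofReal_tsum, Complex.ofReal_tsum]
      exact h3
    exact_mod_cast h4

/-- block diagonal matrices with blocks of size 2 -/
noncomputable def bd {P : Type} [DecidableEq P] (G : P → Matrix (Fin 2) (Fin 2) ℝ) :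
    Matrix (P × Fin 2) (P × Fin 2) ℝ :=
  (Matrix.blockDiagonal G).submatrix Prod.swap Prod.swap

lemma bd_det {P : Type} [Fintype P] [DecidableEq P] (G : P → Matrix (Fin 2) (Fin 2) ℝ) :
    (bd G).det = ∏ v, (G v).det := by
  have h := Matrix.det_submatrix_equiv_self (Equiv.prodComm P (Fin 2)) (Matrix.blockDiagonal G)
  rw [Matrix.det_blockDiagonal] at h
  exact h

lemma bd_mulVec {P : Type} [Fintype P] [DecidableEq P] (G : P → Matrix (Fin 2) (Fin 2) ℝ)
    (z : P × Fin 2 → ℝ) (v : P) (i : Fin 2) :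
    (bd G).mulVec z (v, i) = G v i 0 * z (v, 0) + G v i 1 * z (v, 1) := by
  simp only [bd, Matrix.mulVec, dotProduct, Fintype.sum_prod_type, Matrix.submatrix_apply,
    Prod.swap_prod_mk, Matrix.blockDiagonal_apply, Fin.sum_univ_two]
  simp [ite_mul, Finset.sum_add_distrib]

lemma bd_transpose_mulVec {P : Type} [Fintype P] [DecidableEq P]
    (G : P → Matrix (Fin 2) (Fin 2) ℝ) (z : P × Fin 2 → ℝ) (v : P) (i : Fin 2) :
    (bd G).transpose.mulVec z (v, i) = G v 0 i * z (v, 0) + G v 1 i * z (v, 1) := by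
  simp only [bd, Matrix.mulVec, dotProduct, Fintype.sum_prod_type, Matrix.submatrix_apply,
    Matrix.transpose_apply, Prod.swap_prod_mk, Matrix.blockDiagonal_apply, Fin.sum_univ_two]
  simp [ite_mul, Finset.sum_add_distrib]

open scoped Classical in
/-- sums over a subset parametrised by a bijection -/
lemma tsum_param {ι V : Type} (S : Set V) (g : ι → V) (hg : ∀ m, g m ∈ S)
    (hinj : Function.Injective g) (hsurj : ∀ u ∈ S, ∃ m, g m = u) (f : V → ℝ) :
    (Summable (fun m => f (g m)) → Summable (fun u : V => if u ∈ S then f u else 0)) ∧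
    ∑' u : V, (if u ∈ S then f u else 0) = ∑' m, f (g m) := by
  have e : (fun u : V => if u ∈ S then f u else 0) = S.indicator f := by
    funext u
    simp [Set.indicator]
  let E : ι ≃ S := Equiv.ofBijective (fun m => ⟨g m, hg m⟩)
    ⟨fun a b h => hinj (congrArg Subtype.val h), fun u => by
      obtain ⟨m, hm⟩ := hsurj u.1 u.2
      exact ⟨m, Subtype.ext hm⟩⟩
  rw [e]
  constructor
  · intro h
    rw [← summable_subtype_iff_indicator]
    rw [← E.summable_iff]
    exact h
  · rw [← tsum_subtype S f]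
    exact (E.tsum_eq (fun u : S => f u)).symm

open scoped Classical in
/-- (THT) the theta inversion. -/
theorem pf_THT (hLBA : T_LBA) (hDUB : T_DUB) (hIXD : T_IXD) : T_THT := by
  intro k _ _ _ M x y c hM hy
  obtain ⟨b, hb, hdet⟩ := hLBA k M hM
  obtain ⟨htr, hdu⟩ := hDUB k M b hM hb hdet
  obtain ⟨hdk, -, -, -, -, -⟩ := hIXD k
  have hDN : 0 < Dm M := Nat.mul_pos hdk (Nat.pos_of_ne_zero hM)
  set D : ℝ := (Dm M : ℝ) with hD
  have hD0 : 0 < D := by rw [hD]; exact_mod_cast hDN
  have hBdet : (Bm b).det ≠ 0 := by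
    intro h
    rw [h, abs_zero] at hdet
    exact hD0.ne hdet
  -- the matrix
  let G : Pl k → Matrix (Fin 2) (Fin 2) ℝ := fun v =>
    !![Real.exp (c v / 2) / √(y v), Real.exp (c v / 2) * (x v / √(y v));
      0, Real.exp (c v / 2) * √(y v)]
  have hG00 : ∀ v, G v 0 0 = Real.exp (c v / 2) / √(y v) := fun v => rfl
  have hG01 : ∀ v, G v 0 1 = Real.exp (c v / 2) * (x v / √(y v)) := fun v => rfl
  have hG10 : ∀ v, G v 1 0 = 0 := fun v => rfl
  have hG11 : ∀ v, G v 1 1 = Real.exp (c v / 2) * √(y v) := fun v => rfl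
  have hsy : ∀ v, 0 < √(y v) := fun v => Real.sqrt_pos.2 (hy v)
  have hsy2 : ∀ v, √(y v) ^ 2 = y v := fun v => Real.sq_sqrt (hy v).le
  have he2 : ∀ t : ℝ, Real.exp (t / 2) ^ 2 = Real.exp t := fun t => by
    rw [← Real.exp_nat_mul]; congr 1; push_cast; ring
  have hGdet : ∀ v, (G v).det = Real.exp (c v) := fun v => by
    rw [Matrix.det_fin_two, hG00, hG01, hG10, hG11, ← he2 (c v)]
    have := (hsy v).ne'
    field_simp
    ring
  set A : Matrix (Pl k × Fin 2) (Pl k × Fin 2) ℝ := bd G * Bm b with hA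
  have hAdet : |A.det| = Real.exp (∑ v, c v) * D := by
    rw [hA, Matrix.det_mul, bd_det, abs_mul, hdet]
    simp only [hGdet]
    rw [← Real.exp_sum, abs_of_pos (Real.exp_pos _)]
  have hA0 : A.det ≠ 0 := by
    intro h
    rw [h, abs_zero] at hAdet
    exact (mul_pos (Real.exp_pos _) hD0).ne hAdet
  obtain ⟨hs, hp⟩ := poisson A hA0
  -- the primal side
  have hcomb : ∀ (m : Pl k × Fin 2 → ℤ) (v : Pl k),
      (Bm b).mulVec (fun i => (m i : ℝ)) (v, 0) = rv v ((∑ i, m i • b i).1 : k) ∧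
      (Bm b).mulVec (fun i => (m i : ℝ)) (v, 1) = rv v ((∑ i, m i • b i).2 : k) := by
    intro m v
    have e1 : ((∑ i, m i • b i).1 : 𝓞 k) = ∑ i, m i • (b i).1 := by
      rw [Prod.fst_sum]; rfl
    have e2 : ((∑ i, m i • b i).2 : 𝓞 k) = ∑ i, m i • (b i).2 := by
      rw [Prod.snd_sum]; rfl
    have e3 : ∀ z : Pl k × Fin 2 → 𝓞 k, rv v ((∑ i, m i • z i : 𝓞 k) : k) =
        ∑ i, (m i : ℝ) * rv v (z i : k) := by
      intro z
      have e4 : ((∑ i, m i • z i : 𝓞 k) : k) = ∑ i, (m i : k) * (z i : k) := by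
        change algebraMap (𝓞 k) k (∑ i, m i • z i) = _
        rw [map_sum]
        refine Finset.sum_congr rfl fun i _ => ?_
        rw [zsmul_eq_mul, map_mul, map_intCast]
      rw [e4, map_sum]
      refine Finset.sum_congr rfl fun i _ => ?_
      rw [map_mul, map_intCast]
    rw [e1, e2, e3, e3]
    constructor
    · simp only [Matrix.mulVec, dotProduct]
      refine Finset.sum_congr rfl fun i _ => ?_
      have : Bm b (v, 0) i = rv v ((b i).1 : k) := if_pos rfl
      rw [this, mul_comm]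
    · simp only [Matrix.mulVec, dotProduct]
      refine Finset.sum_congr rfl fun i _ => ?_
      have : Bm b (v, 1) i = rv v ((b i).2 : k) := if_neg (by norm_num)
      rw [this, mul_comm]
  have hprim : ∀ m : Pl k × Fin 2 → ℤ,
      Real.exp (-π * ∑ i, (A.mulVec (fun i => (m i : ℝ)) i) ^ 2) =
        Real.exp (-(2 * π) * qs x y c (∑ i, m i • b i)) := by
    intro m
    have e1 : ∑ i, (A.mulVec (fun i => (m i : ℝ)) i) ^ 2 = 2 * qs x y c (∑ i, m i • b i) := by
      rw [Fintype.sum_prod_type, qs, Finset.mul_sum]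
      refine Finset.sum_congr rfl fun v _ => ?_
      rw [Fin.sum_univ_two, hA, ← Matrix.mulVec_mulVec, bd_mulVec, bd_mulVec, (hcomb m v).1,
        (hcomb m v).2, hG00, hG01, hG10, hG11, qr, ← he2 (c v)]
      have h1 := (hsy v).ne'
      have h2 := hsy2 v
      have h3 := (hy v).ne'
      set a := rv v ((∑ i, m i • b i).1 : k)
      set a' := rv v ((∑ i, m i • b i).2 : k)
      set w := √(y v)
      clear_value w
      rw [← h2]
      field_simp
      ring
    rw [e1]
    congr 1
    ring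
  -- the dual side
  have hu : ∀ m : Pl k × Fin 2 → ℤ, ∃ u : V2 k, u ∈ du M ∧
      ∀ i, Algebra.trace ℤ (𝓞 k) (det u (b i)) = (Dm M : ℤ) * m i := fun m => (hdu m).exists
  choose g hg1 hg2 using hu
  have hbM : ∀ i, b i ∈ M := by
    intro i
    rw [hb]
    refine ⟨Pi.single i 1, ?_⟩
    rw [Finset.sum_eq_single i]
    · simp
    · intro j _ hj
      simp [Pi.single_eq_of_ne hj]
    · simp
  have hdual : ∀ m : Pl k × Fin 2 → ℤ,
      Real.exp (-π * ∑ i, ((A⁻¹).transpose.mulVec (fun i => (m i : ℝ)) i) ^ 2) =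
        Real.exp (-(2 * π) * qs x y (fun v => -c v - 2 * Real.log D) (g m)) := by
    intro m
    let q : Pl k × Fin 2 → ℝ := fun p => if p.2 = 0 then
      -(Real.exp (-(c p.1 / 2)) * √(y p.1) * (rv p.1 ((g m).2 : k) / D)) else
      Real.exp (-(c p.1 / 2)) * (rv p.1 ((g m).1 : k) / D + x p.1 * (rv p.1 ((g m).2 : k) / D)) /
        √(y p.1)
    have hq0 : ∀ v, q (v, 0) = -(Real.exp (-(c v / 2)) * √(y v) * (rv v ((g m).2 : k) / D)) :=
      fun v => if_pos rfl
    have hq1 : ∀ v, q (v, 1) = Real.exp (-(c v / 2)) * (rv v ((g m).1 : k) / D +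
        x v * (rv v ((g m).2 : k) / D)) / √(y v) := fun v => if_neg (by norm_num)
    have hqe : (A⁻¹).transpose.mulVec (fun i => (m i : ℝ)) = q := by
      have h1 : A.transpose.mulVec q = fun i => (m i : ℝ) := by
        funext i
        rw [hA, Matrix.transpose_mul, ← Matrix.mulVec_mulVec]
        have h2 : ∀ v, (bd G).transpose.mulVec q (v, 0) = -(rv v ((g m).2 : k) / D) := by
          intro v
          rw [bd_transpose_mulVec, hG00, hG10, hq0, Real.exp_neg]
          have h3 := (hsy v).ne'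
          have h4 := (Real.exp_pos (c v / 2)).ne'
          field_simp
          ring
        have h5 : ∀ v, (bd G).transpose.mulVec q (v, 1) = rv v ((g m).1 : k) / D := by
          intro v
          rw [bd_transpose_mulVec, hG01, hG11, hq0, hq1, Real.exp_neg]
          have h3 := (hsy v).ne'
          have h4 := (Real.exp_pos (c v / 2)).ne'
          field_simp
          ring
        set p := (bd G).transpose.mulVec q
        have h6 : (Bm b).transpose.mulVec p i =
            (∑ v : Pl k, (rv v ((g m).1 : k) * rv v ((b i).2 : k) -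
              rv v ((g m).2 : k) * rv v ((b i).1 : k))) / D := by
          simp only [Matrix.mulVec, dotProduct, Fintype.sum_prod_type, Fin.sum_univ_two,
            Matrix.transpose_apply]
          rw [Finset.sum_div]
          refine Finset.sum_congr rfl fun v _ => ?_
          have h7 : Bm b (v, 0) i = rv v ((b i).1 : k) := if_pos rfl
          have h8 : Bm b (v, 1) i = rv v ((b i).2 : k) := if_neg (by norm_num)
          rw [h7, h8, h2, h5]
          ring
        rw [h6, ← htr, hg2]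
        push_cast
        rw [← hD]
        field_simp
      have h9 : IsUnit A.det := hA0.isUnit
      rw [← h1, Matrix.mulVec_mulVec, ← Matrix.transpose_mul, Matrix.mul_nonsing_inv _ h9,
        Matrix.transpose_one, Matrix.one_mulVec]
    rw [hqe]
    have e1 : ∑ i, q i ^ 2 = 2 * qs x y (fun v => -c v - 2 * Real.log D) (g m) := by
      rw [Fintype.sum_prod_type, qs, Finset.mul_sum]
      refine Finset.sum_congr rfl fun v _ => ?_
      rw [Fin.sum_univ_two, hq0, hq1, qr]
      have e2 : Real.exp (-c v - 2 * Real.log D) = Real.exp (-(c v / 2)) ^ 2 / D ^ 2 := by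
        rw [Real.exp_sub, mul_comm (2 : ℝ) (Real.log D), ← Real.rpow_def_of_pos hD0]
        have e3 : Real.exp (-(c v / 2)) ^ 2 = Real.exp (-c v) := by
          rw [← Real.exp_nat_mul]; congr 1; push_cast; ring
        rw [e3]
        congr 1
        norm_cast
      rw [e2]
      have h1 := (hsy v).ne'
      have h2 := hsy2 v
      have h3 := (hy v).ne'
      set a := rv v ((g m).1 : k)
      set a' := rv v ((g m).2 : k)
      set w := √(y v)
      clear_value w
      rw [← h2]
      field_simp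
      ring
    rw [e1]
    congr 1
    ring
  -- the parametrisations
  have hinj1 : Function.Injective (fun m : Pl k × Fin 2 → ℤ => ∑ i, m i • b i) := by
    intro m m' hmm
    have hmm' : ∑ i, m i • b i = ∑ i, m' i • b i := hmm
    have h1 : (Bm b).mulVec (fun i => (m i : ℝ)) = (Bm b).mulVec (fun i => (m' i : ℝ)) := by
      funext p
      obtain ⟨v, j⟩ := p
      fin_cases j
      · change (Bm b).mulVec (fun i => (m i : ℝ)) (v, 0) = (Bm b).mulVec (fun i => (m' i : ℝ)) (v, 0)
        rw [(hcomb m v).1, (hcomb m' v).1, hmm']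
      · change (Bm b).mulVec (fun i => (m i : ℝ)) (v, 1) = (Bm b).mulVec (fun i => (m' i : ℝ)) (v, 1)
        rw [(hcomb m v).2, (hcomb m' v).2, hmm']
    have h2 := Matrix.mulVec_injective_of_isUnit
      ((Matrix.isUnit_iff_isUnit_det _).2 hBdet.isUnit) h1
    funext i
    have h3 := congrFun h2 i
    exact_mod_cast h3
  have hsurj1 : ∀ u ∈ (M : Set (V2 k)), ∃ m : Pl k × Fin 2 → ℤ, ∑ i, m i • b i = u := by
    intro u hu
    exact (hb u).1 hu
  have hinj2 : Function.Injective g := by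
    intro m m' hmm
    funext i
    have h1 := hg2 m i
    have h2 := hg2 m' i
    rw [hmm, h2] at h1
    have h3 : (Dm M : ℤ) ≠ 0 := by exact_mod_cast hDN.ne'
    exact (mul_left_cancel₀ h3 h1).symm
  have hsurj2 : ∀ u ∈ (du M : Set (V2 k)), ∃ m, g m = u := by
    intro u hu
    have h1 : ∀ i, ∃ n : ℤ, Algebra.trace ℤ (𝓞 k) (det u (b i)) = (Dm M : ℤ) * n := by
      intro i
      obtain ⟨n, hn⟩ := hu (b i) (hbM i)
      exact ⟨n, hn⟩
    choose n hn using h1
    exact ⟨n, (hdu n).unique ⟨hg1 n, hg2 n⟩ ⟨hu, hn⟩⟩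
  have hP := tsum_param (M : Set (V2 k)) (fun m : Pl k × Fin 2 → ℤ => ∑ i, m i • b i)
    (fun m => (hb _).2 ⟨m, rfl⟩) hinj1 hsurj1 (fun u => Real.exp (-(2 * π) * qs x y c u))
  have hQ := tsum_param (du M : Set (V2 k)) g hg1 hinj2 hsurj2
    (fun u => Real.exp (-(2 * π) * qs x y (fun v => -c v - 2 * Real.log D) u))
  simp only [hprim, hdual] at hs hp
  refine ⟨hP.1 hs, ?_⟩
  have e1 : th2 M x y c = ∑' m : Pl k × Fin 2 → ℤ,
      Real.exp (-(2 * π) * qs x y c (∑ i, m i • b i)) := hP.2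
  have e2 : th2 (du M) x y (fun v => -c v - 2 * Real.log D) = ∑' m : Pl k × Fin 2 → ℤ,
      Real.exp (-(2 * π) * qs x y (fun v => -c v - 2 * Real.log D) (g m)) := hQ.2
  rw [e1, e2, hp, hAdet, mul_inv, ← Real.exp_neg]
  rw [div_eq_mul_inv]

end Pool.Agent.H33.CM4B
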